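import Pool.Agent.H20.Orb2

namespace Pool.Agent.Results.MP_fefe6a_co.Yes

open Pool.Agent.H20.Orb Polynomial

theorem result (N : ℝ) : ∃ (V : Type) (_ : Fintype V) (_ : Nonempty V) (Γ : SimpleGraph V)
    (G : Subgroup (Γ ≃g Γ)) (P OP : ℝ[X]),
    (∀ q : ℕ, P.eval (q : ℝ) = Nat.card (Γ.Coloring (Fin q))) ∧
    (∀ q : ℕ, OP.eval (q : ℝ) = Nat.card (Quot (orbRel Γ G q))) ∧
    (∀ x, P.IsRoot x → x ≤ 2) ∧ ∃ r, OP.IsRoot r ∧ ∀ x, P.IsRoot x → x + N ≤ r :=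
  main N

end Pool.Agent.Results.MP_fefe6a_co.Yes
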